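import Pool.Agent.Helper9.RC2.Goals
import Pool.Agent.Helper32.RC.CutDown

/-!
# MP_b55b7c_an, packet RC2-FINL: absorption of `e` for finitely many local comparisons
-/

open scoped ENNReal NNReal InnerProductSpace ComplexOrder
open Filter Topology

attribute [-instance] CStarMatrix.instAlgebra CStarMatrix.instModule CStarMatrix.instSMul
  CStarMatrix.instMulAction CStarMatrix.instDistribMulAction

set_option linter.unusedSectionVars false

noncomputable section
namespace Pool.Agent.Helper44.RC2.FINL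
open RC RC.CutDown
universe u

section hom
variable {A : Type u} [CStarAlgebra A] [PartialOrder A] [StarOrderedRing A]
variable {B : Type u} [CStarAlgebra B] [PartialOrder B] [StarOrderedRing B]
variable {ι κ μ ν : Type} [Fintype ι] [DecidableEq ι] [Fintype κ] [DecidableEq κ]
  [Fintype μ] [DecidableEq μ] [Fintype ν] [DecidableEq ν]

theorem mp_conj (j : B →⋆ₐ[ℂ] A) (x : CStarMatrix ι κ B) :
    mp j x.conjTranspose = (mp j x).conjTranspose := by
  ext i k
  show j (star (x k i)) = star (j (x k i))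
  exact map_star j _

theorem mp_add (j : B →⋆ₐ[ℂ] A) (x y : CStarMatrix ι κ B) :
    mp j (x + y) = mp j x + mp j y := by
  ext i k
  show j (x i k + y i k) = j (x i k) + j (y i k)
  exact map_add j _ _

theorem mp_sub (j : B →⋆ₐ[ℂ] A) (x y : CStarMatrix ι κ B) :
    mp j (x - y) = mp j x - mp j y := by
  ext i k
  show j (x i k - y i k) = j (x i k) - j (y i k)
  exact map_sub j _ _

theorem mp_rsmul (j : B →⋆ₐ[ℂ] A) (c : ℝ) (x : CStarMatrix ι κ B) :
    mp j (c • x) = c • mp j x := by
  ext i k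
  show j (c • x i k) = c • j (x i k)
  have h1 : ∀ (y : B), c • y = (c : ℂ) • y := fun y => (Complex.coe_smul c y).symm
  have h2 : ∀ (y : A), c • y = (c : ℂ) • y := fun y => (Complex.coe_smul c y).symm
  rw [h1, h2, map_smul]

theorem mp_one (j : B →⋆ₐ[ℂ] A) : mp j (1 : CStarMatrix ι ι B) = 1 := by
  ext i k
  show j ((1 : Matrix ι ι B) i k) = (1 : Matrix ι ι A) i k
  rcases eq_or_ne i k with h | h
  · rw [h, Matrix.one_apply_eq, Matrix.one_apply_eq, map_one]
  · rw [Matrix.one_apply_ne h, Matrix.one_apply_ne h, map_zero]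

theorem mp_le (hMp : MpP.{u}) {j : B →⋆ₐ[ℂ] A} (hj : Function.Injective j)
    {x y : CStarMatrix ι ι B} (h : x ≤ y) : mp j x ≤ mp j y := by
  have h1 := (hMp A B j hj ι ι (y - x) (y - x)).1.1 (sub_nonneg.2 h)
  rw [mp_sub] at h1
  exact sub_nonneg.1 h1

theorem cm_add_mul (x y : CStarMatrix ι κ A) (z : CStarMatrix κ μ A) :
    (x + y) * z = x * z + y * z := Matrix.add_mul _ _ _

theorem cm_mul_add (x : CStarMatrix ι κ A) (y z : CStarMatrix κ μ A) :
    x * (y + z) = x * y + x * z := Matrix.mul_add _ _ _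

theorem cm_mul_zero (x : CStarMatrix ι κ A) : x * (0 : CStarMatrix κ μ A) = 0 :=
  Matrix.mul_zero _

theorem cm_zero_mul (x : CStarMatrix κ μ A) : (0 : CStarMatrix ι κ A) * x = 0 :=
  Matrix.zero_mul _

theorem rsmul_le_left {x y : CStarMatrix ι ι A} (h : x ≤ y) {c : ℝ} (hc : 0 ≤ c) :
    c • x ≤ c • y := smul_le_smul_of_nonneg_left h hc

theorem rsmul_one_le {c d : ℝ} (h : c ≤ d) :
    c • (1 : CStarMatrix ι ι A) ≤ d • (1 : CStarMatrix ι ι A) :=
  smul_le_smul_of_nonneg_right h zero_le_one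

end hom

theorem t (hVec : VecP.{u}) (hStg : StgP.{u}) (hSym : SymP.{u}) (hMp : MpP.{u}) :
    FinlP.{u} := by
  intro A _ _ _ B _ _ _ G _ _ α j hα hj m ρ θ K g hm hρ hθ hK hg hcomp hms κ' κ n ν _ _ _ _ _ _
    _ _ e z c he he1 hz hzK hde hdz p
  induction p with
  | zero =>
    intro y h _ η hη
    refine ⟨0, 0, fun i => i.elim0, ?_, fun i => i.elim0⟩
    rw [cm_mul_zero, cm_zero_mul]
  | succ p ih =>
    intro y h hyh η hη
    obtain ⟨Y, F, v, hY, hv⟩ := ih (fun i => y i.castSucc) (fun i => h i.castSucc)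
      (fun i => hyh i.castSucc) (η / 2) (by positivity)
    set yp : CStarMatrix κ n A := y (Fin.last p) with hyp
    set hp : CStarMatrix n n A := h (Fin.last p) with hhp
    obtain ⟨hp0, hpz⟩ := hyh (Fin.last p)
    obtain ⟨S, hS0, hSW, hSd⟩ := hSym A B G α j hα hj n ν ((c * yp).conjTranspose * (c * Y))
      ((c * yp).conjTranspose * F) e θ he (by rw [hY, cm_assoc]) hde
    have hSω : ∀ ω : QTrace B, ω.dim e + ρ + ω.dim S < ω.dim (cut z g) := by
      intro ω
      obtain ⟨σ, hσ⟩ := hms ω
      have h1 : ω.dim S ≤ m * σ.dim (mp j S) := hσ n S hS0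
      have h2 : ω.dim e ≤ m * σ.dim (mp j e) := hσ ν e he
      have h3 : m * σ.dim (mp j S) ≤ m * (Fintype.card G * θ) :=
        mul_le_mul_of_nonneg_left (hSd σ) hm
      have h4 : m * σ.dim (mp j e) ≤ m * θ := mul_le_mul_of_nonneg_left (hde σ) hm
      have h5 := hdz ω
      have h6 : m * (Fintype.card G + 1) * θ = m * (Fintype.card G * θ) + m * θ := by ring
      linarith
    set L : ℝ := 2 * K / g ^ 2 with hL
    have hL0 : 0 ≤ L := by positivity
    set δ : ℝ := (η / 8) ^ 2 / (L + 1) with hδ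
    have hδ0 : 0 < δ := by positivity
    have hsq : Real.sqrt (δ * L) ≤ η / 8 := by
      rw [show η / 8 = Real.sqrt ((η / 8) ^ 2) from (Real.sqrt_sq (by positivity)).symm]
      refine Real.sqrt_le_sqrt ?_
      have h1 : δ * L = (η / 8) ^ 2 * (L / (L + 1)) := by
        rw [hδ]; ring
      rw [h1]
      have h2 : L / (L + 1) ≤ 1 := (div_le_one (by positivity)).2 (by linarith)
      nlinarith [sq_nonneg (η / 8)]
    obtain ⟨u, u', hu, h1, h2, h3⟩ := hVec B ρ hcomp n ν z S e K δ g (η / 4) hz hzK hK hS0 he hδ0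
      hg (by positivity) hSω
    have hmu : mp j u = mp j u' * mp j e := by rw [hu, mp_mul]
    have k1 : mp j e ≤ (mp j u).conjTranspose * mp j z * mp j u +
        (η / 4) • (1 : CStarMatrix ν ν A) := by
      have h := mp_le hMp hj.1 h1
      rwa [mp_add, mp_rsmul, mp_one, mp_mul, mp_mul, mp_conj] at h
    have k2 : (mp j u).conjTranspose * mp j u ≤ L • (1 : CStarMatrix ν ν A) := by
      have h := mp_le hMp hj.1 (h2.trans (rsmul_le_left he1 hL0))
      rwa [mp_rsmul, mp_one, mp_mul, mp_conj] at h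
    have k3 : (mp j u).conjTranspose * mp j S * mp j u ≤
        δ • ((mp j u).conjTranspose * mp j u) := by
      have h := mp_le hMp hj.1 h3
      rwa [mp_rsmul, mp_mul, mp_mul, mp_mul, mp_conj] at h
    obtain ⟨g1, g2⟩ := hStg A κ' κ n ν c yp (c * Y) (mp j u) (mp j z) (mp j S) hp (mp j e) δ L
      (η / 4) hδ0.le hL0 hSW k3 k2 hpz k1
    have hcY : c * (Y + yp * mp j u) = c * Y + c * yp * mp j u := by
      rw [cm_mul_add, cm_assoc]
    refine ⟨Y + yp * mp j u, F + c * yp * mp j u', Fin.snoc v (mp j u), ?_, ?_⟩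
    · rw [hcY, cm_add_mul, hY, cm_assoc (c * yp), hmu]
    · rw [hcY]
      intro i
      refine Fin.lastCases ?_ (fun i => ?_) i
      · rw [Fin.snoc_last]
        refine ⟨k2, g2.trans ?_⟩
        refine add_le_add le_rfl (rsmul_one_le ?_)
        linarith
      · rw [Fin.snoc_castSucc]
        obtain ⟨v1, v2⟩ := hv i
        refine ⟨v1, ?_⟩
        have e1 : mp j e ≤ ((c * Y + c * yp * mp j u).conjTranspose *
            (c * Y + c * yp * mp j u) + (2 * Real.sqrt (δ * L)) • (1 : CStarMatrix ν ν A)) +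
            (v i).conjTranspose * h i.castSucc * v i + (η / 2) • (1 : CStarMatrix ν ν A) :=
          v2.trans (add_le_add (add_le_add g1 le_rfl) le_rfl)
        have e2 : ((c * Y + c * yp * mp j u).conjTranspose *
            (c * Y + c * yp * mp j u) + (2 * Real.sqrt (δ * L)) • (1 : CStarMatrix ν ν A)) +
            (v i).conjTranspose * h i.castSucc * v i + (η / 2) • (1 : CStarMatrix ν ν A) =
            (c * Y + c * yp * mp j u).conjTranspose *
            (c * Y + c * yp * mp j u) + (v i).conjTranspose * h i.castSucc * v i +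
            (2 * Real.sqrt (δ * L) + η / 2) • (1 : CStarMatrix ν ν A) := by
          rw [add_smul]
          abel
        rw [e2] at e1
        refine e1.trans (add_le_add le_rfl (rsmul_one_le ?_))
        linarith

end Pool.Agent.Helper44.RC2.FINL
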